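import Pool.Agent.H64.ZubDefs
import Pool.Agent.H64.Zub4

set_option autoImplicit false

namespace Pool.Agent.Results.MP_4a8797_al.Unbounded

open Pool.Agent.H64.Zub

theorem result : ∀ p : ℕ, p.Prime → ∃ V : Cls, IsVariety p V ∧ ∀ (X : Type) [Nontrivial X],
    (∃ (F : Type) (_ : Group F) (_ : TopologicalSpace F) (i : X → F), IsFree V X F i) ∧
    ∀ (F : Type) [Group F] [TopologicalSpace F] (i : X → F), IsFree V X F i →
      ∀ N : ℕ, ∃ g : F, IsOfFinOrder g ∧ N < orderOf g := fun p hp =>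
  haveI : Fact p.Prime := ⟨hp⟩
  main p

end Pool.Agent.Results.MP_4a8797_al.Unbounded
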